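import Pool.Agent.MWFE.StmtsA

/-!
# MWFE, row PWL: exponents modulo `n`
-/

set_option autoImplicit false

namespace Pool.Agent.MWFE.H77

open Pool.Agent.Helper14_MV Pool.Agent.Helper2_MV Pool.Agent.MVD Pool.Agent.MWFE

/-- a power of a letter as an image of a power of `0` -/
theorem flatMap_rep (m v : ℕ) :
    (List.replicate m 0).flatMap (fun _ => [v]) = List.replicate m v := by
  induction m with
  | zero => rfl
  | succ m ih => rw [List.replicate_succ, List.flatMap_cons, ih, List.replicate_succ]; rfl

/-- one step -/
theorem step {n : ℕ} {β : FIC} (hz : Hz n β) (v a : ℕ) (ha : 2 ≤ a) :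
    RR β (List.replicate a v) (List.replicate (a + n) v) := by
  have h1 := RR.sub (fun _ => [v]) hz.per
  rw [flatMap_rep] at h1
  have h0 : ([0, 0] : List ℕ).flatMap (fun _ => [v]) = List.replicate 2 v := rfl
  rw [h0] at h1
  have h2 := h1.append (RR.refl (β := β) (List.replicate (a - 2) v))
  rw [List.replicate_append_replicate, List.replicate_append_replicate] at h2
  have e1 : 2 + (a - 2) = a := by omega
  have e2 : n + 2 + (a - 2) = a + n := by omega
  rw [e1, e2] at h2
  exact h2

/-- many steps -/
theorem steps {n : ℕ} {β : FIC} (hz : Hz n β) (v a : ℕ) (ha : 2 ≤ a) (k : ℕ) :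
    RR β (List.replicate a v) (List.replicate (a + n * k) v) := by
  induction k with
  | zero => exact RR.refl _
  | succ k ih =>
    have h := step hz v (a + n * k) (by omega)
    have e : a + n * k + n = a + n * (k + 1) := by ring
    rw [e] at h
    exact β.trans ih h

/-- congruent exponents -/
theorem pw {n : ℕ} {β : FIC} (hz : Hz n β) (v a b : ℕ) (h : a ≡ b [MOD n]) (ha : 2 ≤ a)
    (hab : a ≤ b) : RR β (List.replicate a v) (List.replicate b v) := by
  obtain ⟨k, hk⟩ := (Nat.modEq_iff_dvd' hab).1 h
  have e : b = a + n * k := by omega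
  rw [e]
  exact steps hz v a ha k

/-- **PWL** -/
theorem pwl : PwlStmt := by
  intro n β hz p q v a b h ha hb
  have h1 : RR β (List.replicate a v) (List.replicate b v) := by
    rcases Nat.le_total a b with hab | hab
    · exact pw hz v a b h ha hab
    · exact (pw hz v b a h.symm hb hab).symm
  exact (RR.refl p).append (h1.append (RR.refl q))

end Pool.Agent.MWFE.H77
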